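import Mathlib
set_option autoImplicit false

namespace Pool.Agent.Results.MP_768068_al.NotNilpotent

section defs
variable {A : Type} [NonUnitalNonAssocRing A] [Module ℚ A]

/-- `IsProd S n x`: `x` is a product of `n` elements of `S` for some arrangement of parentheses. -/
inductive IsProd {A : Type} [Mul A] (S : Set A) : ℕ → A → Prop
  | one {x : A} : x ∈ S → IsProd S 1 x
  | mul {m n : ℕ} {x y : A} : IsProd S m x → IsProd S n y → IsProd S (m + n) (x * y)

/-- For some `n ≥ 1` every product of `n` elements of `S` vanishes. -/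
def Nilp (S : Set A) : Prop := ∃ n, 1 ≤ n ∧ ∀ x, IsProd S n x → x = 0

/-- Two-sided ideal of the algebra. -/
def IsIdeal (I : Submodule ℚ A) : Prop := ∀ a x, x ∈ I → a * x ∈ I ∧ x * a ∈ I

variable [IsScalarTower ℚ A A] [SMulCommClass ℚ A A]

/-- Every subalgebra generated by finitely many elements of `S` is nilpotent. -/
def LocNilp (S : Set A) : Prop :=
  ∀ T : Finset A, (T : Set A) ⊆ S → Nilp (NonUnitalAlgebra.adjoin ℚ (T : Set A) : Set A)

/-- `L` is the largest locally nilpotent ideal. -/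
def IsLNRad (L : Submodule ℚ A) : Prop :=
  IsIdeal L ∧ LocNilp (L : Set A) ∧ ∀ I : Submodule ℚ A, IsIdeal I → LocNilp (I : Set A) → I ≤ L

/-- Ascending chain condition on two-sided ideals. -/
def WNoeth (A : Type) [NonUnitalNonAssocRing A] [Module ℚ A] : Prop :=
  ∀ f : ℕ → Submodule ℚ A, (∀ n, IsIdeal (f n)) → Monotone f → ∃ N, ∀ n, N ≤ n → f n = f N

/-- Weakly Noetherian, with a locally nilpotent radical that is not nilpotent. -/
def Bad (A : Type) [NonUnitalNonAssocRing A] [Module ℚ A] [IsScalarTower ℚ A A]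
    [SMulCommClass ℚ A A] : Prop :=
  WNoeth A ∧ ∃ L : Submodule ℚ A, IsLNRad L ∧ ¬ Nilp (L : Set A)

lemma bad_of (I : ℕ → Submodule ℚ A) (W : ℕ → ℕ → Submodule ℚ A)
    (ha : ∀ J, IsIdeal J → J = ⊥ ∨ ∃ j, J = I j) (hb : IsIdeal (I 1)) (hc : Antitone I)
    (hd : ∀ N i j x y, x ∈ W N i → y ∈ W N j → x * y ∈ W N (i + j))
    (hz : ∀ N, W N (N + 1) = ⊥) (h2 : ∀ N, W N 2 ≤ W N 1) (hm : Monotone (fun N => W N 1))
    (hI : ∀ x ∈ I 1, ∃ N, x ∈ W N 1)
    (he : ∀ n, 1 ≤ n → ∃ x, x ≠ 0 ∧ IsProd (I 1 : Set A) n x)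
    (u : A) (hu : u ∈ I 0) (hu0 : u ≠ 0) (c : ℚ) (hc0 : c ≠ 0) (huu : u * u = c • u) :
    Bad A := by
  classical
  refine ⟨fun f hf hmono => ?_, I 1, ⟨hb, fun T hT => ?_, fun J hJ hL => ?_⟩, ?_⟩
  · by_cases h : ∃ j, ∃ n, f n = I j
    · obtain ⟨N, hN⟩ := Nat.find_spec h
      refine ⟨N, fun n hn => le_antisymm ?_ (hmono hn)⟩
      rcases ha _ (hf n) with h0 | ⟨j, hj⟩
      · rw [h0]; exact bot_le
      · rw [hj, hN]; exact hc (Nat.find_min' h ⟨n, hj⟩)
    · have : ∀ n, f n = ⊥ := fun n => (ha _ (hf n)).resolve_right (fun ⟨j, hj⟩ => h ⟨j, n, hj⟩)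
      exact ⟨0, fun n _ => by rw [this, this]⟩
  · obtain ⟨N, hN⟩ : ∃ N, ∀ x ∈ T, x ∈ W N 1 := by
      choose! g hg using hI
      exact ⟨T.sup g, fun x hx => hm (Finset.le_sup (f := g) hx) (hg x (hT hx))⟩
    have h1 : NonUnitalAlgebra.adjoin ℚ (T : Set A) ≤
        (W N 1).toNonUnitalSubalgebra (fun x y hx hy => h2 N (hd N 1 1 x y hx hy)) :=
      NonUnitalAlgebra.adjoin_le hN
    have h3 : ∀ n x, IsProd (NonUnitalAlgebra.adjoin ℚ (T : Set A) : Set A) n x → x ∈ W N n := by
      intro n x h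
      induction h with
      | one h => exact h1 h
      | mul _ _ a b => exact hd _ _ _ _ _ a b
    refine ⟨N + 1, by omega, fun x hx => ?_⟩
    have := h3 _ _ hx
    rwa [hz] at this
  · rcases ha J hJ with h0 | ⟨j, hj⟩
    · rw [h0]; exact bot_le
    · rcases j with _ | j
      · exfalso
        obtain ⟨n, hn, h⟩ := hL {u} (by simpa [hj] using hu)
        have h3 : ∀ k : ℕ, IsProd (NonUnitalAlgebra.adjoin ℚ (({u} : Finset A) : Set A) : Set A)
            (k + 1) (c ^ k • u) := by
          have h4 : u ∈ NonUnitalAlgebra.adjoin ℚ (({u} : Finset A) : Set A) :=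
            NonUnitalAlgebra.subset_adjoin ℚ (by simp)
          intro k
          induction k with
          | zero => exact IsProd.one (by simpa using h4)
          | succ k ih =>
            have := ih.mul (IsProd.one h4)
            rwa [smul_mul_assoc, huu, smul_smul, ← pow_succ] at this
        obtain ⟨k, rfl⟩ : ∃ k, n = k + 1 := ⟨n - 1, by omega⟩
        exact smul_ne_zero (pow_ne_zero k hc0) hu0 (h _ (h3 k))
      · rw [hj]; exact hc (by omega)
  · rintro ⟨n, hn, h⟩
    obtain ⟨x, hx, hp⟩ := he n hn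
    exact hx (h x hp)

end defs

def X : Type := {x : ℕ → ℕ // ∀ n, x n ≤ n}

def eqv (M : ℕ) (x y : X) : Prop := ∀ n < M, x.1 n = y.1 n

def PS (M : ℕ) : Set X := {x | ∀ n, M ≤ n → x.1 n = 0}

lemma PS_fin (M : ℕ) : (PS M).Finite := by
  refine Set.Finite.of_injOn (f := fun (x : X) (i : Fin M) => x.1 i)
    (t := Set.pi Set.univ (fun _ => Set.Iic M)) ?_ ?_
    (Set.Finite.pi (fun _ => Set.finite_Iic M))
  · intro x _ i _
    exact (x.2 i).trans i.2.le
  · intro x hx y hy h
    apply Subtype.ext; funext n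
    by_cases hn : n < M
    · exact congrFun h ⟨n, hn⟩
    · rw [hx n (by omega), hy n (by omega)]

noncomputable def P (M : ℕ) : Finset X := (PS_fin M).toFinset

lemma eqv_iff {M : ℕ} {p q : X} (hp : p ∈ P M) (hq : q ∈ P M) : eqv M p q ↔ p = q := by
  simp only [P, Set.Finite.mem_toFinset] at hp hq
  refine ⟨fun h => Subtype.ext (funext fun n => ?_), fun h => h ▸ fun _ _ => rfl⟩
  by_cases hn : n < M
  · exact h n hn
  · rw [hp n (by omega), hq n (by omega)]

def glue (N : ℕ) (v : X) (j : ℕ) (x : X) : X :=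
  ⟨fun n => if n < N then v.1 n else min (x.1 n + j) n, fun n => by
    dsimp only; split_ifs
    · exact v.2 n
    · exact min_le_right _ _⟩

def cnd (N : ℕ) (u : X) (j : ℕ) (x : X) : Prop := eqv N x u ∧ ∀ n, N ≤ n → x.1 n + j ≤ n

open Classical in
noncomputable def E0 (N : ℕ) (u v : X) (j : ℕ) : Module.End ℚ (X → ℚ) where
  toFun f x := if cnd N u j x then f (glue N v j x) else 0
  map_add' f g := by funext x; simp only [Pi.add_apply]; split_ifs <;> simp
  map_smul' c f := by funext x; simp only [Pi.smul_apply]; split_ifs <;> simp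

open Classical in
lemma E0_apply (N : ℕ) (u v : X) (j : ℕ) (f : X → ℚ) (x : X) :
    E0 N u v j f x = if cnd N u j x then f (glue N v j x) else 0 := rfl

open Classical in
structure Sys {R : Type} [Ring R] (E : ℕ → X → X → ℕ → R) : Prop where
  mul : ∀ N u v i u' v' j, E N u v i * E N u' v' j = if eqv N v u' then E N u v' (i + j) else 0
  sand : ∀ N u v j p q, E (N + 1) p p 0 * E N u v j * E (N + 1) q q 0 =
    if eqv N p u ∧ eqv N q v ∧ q.1 N = p.1 N + j then E (N + 1) p q j else 0
  one : ∀ M, ∑ p ∈ P M, E M p p 0 = 1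
  zero : ∀ N u v j, N < j → E N u v j = 0
  ne : ∀ N u v j, j ≤ N → E N u v j ≠ 0

lemma sys0 : Sys E0 where
  mul N u v i u' v' j := by
    ext f x
    rw [Module.End.mul_apply, E0_apply, E0_apply]
    by_cases h1 : cnd N u i x
    · rw [if_pos h1]
      have e1 : cnd N u' j (glue N v i x) ↔ eqv N v u' ∧ cnd N u (i + j) x := by
        constructor
        · rintro ⟨a, b⟩
          refine ⟨fun n hn => by simpa [glue, hn] using a n hn, h1.1, fun n hn => ?_⟩
          have c := b n hn
          have d := h1.2 n hn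
          simp only [glue, not_lt.mpr hn, if_false] at c
          omega
        · rintro ⟨a, _, b⟩
          refine ⟨fun n hn => by simpa [glue, hn] using a n hn, fun n hn => ?_⟩
          have c := b n hn
          simp only [glue, not_lt.mpr hn, if_false]
          omega
      have e2 : glue N v' j (glue N v i x) = glue N v' (i + j) x := by
        apply Subtype.ext; funext n
        simp only [glue]
        split_ifs
        · rfl
        · omega
      rw [e2]
      by_cases h2 : eqv N v u'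
      · rw [if_pos h2, E0_apply]
        classical
        exact if_congr (e1.trans (and_iff_right h2)) rfl rfl
      · rw [if_neg h2, if_neg (fun h => h2 (e1.mp h).1)]
        rfl
    · rw [if_neg h1]
      have : ¬ cnd N u (i + j) x := fun h => h1 ⟨h.1, fun n hn => by have := h.2 n hn; omega⟩
      split_ifs <;> simp [E0_apply, this]
  sand N u v j p q := by
    ext f x
    have g0 : ∀ (M : ℕ) (p x : X), cnd M p 0 x → glue M p 0 x = x := fun M p x h => by
      apply Subtype.ext; funext n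
      simp only [glue]
      split_ifs with hn
      · exact (h.1 n hn).symm
      · have := x.2 n; omega
    simp only [Module.End.mul_apply, E0_apply]
    by_cases h1 : cnd (N + 1) p 0 x
    · rw [if_pos h1, g0 _ _ _ h1]
      by_cases h2 : cnd N u j x
      · rw [if_pos h2]
        have hN := h2.2 N le_rfl
        have hp := h1.1 N (by omega)
        by_cases h3 : cnd (N + 1) q 0 (glue N v j x)
        · rw [if_pos h3, g0 _ _ _ h3]
          have a1 : eqv N p u := fun n hn => (h1.1 n (by omega)).symm.trans (h2.1 n hn)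
          have a2 : eqv N q v := fun n hn => by
            have := h3.1 n (by omega); simp only [glue, hn, if_true] at this; exact this.symm
          have a3 : q.1 N = p.1 N + j := by
            have := h3.1 N (by omega); simp only [glue, lt_irrefl, if_false] at this; omega
          rw [if_pos ⟨a1, a2, a3⟩, E0_apply, if_pos ⟨h1.1, fun n hn => h2.2 n (by omega)⟩]
          congr 1
          apply Subtype.ext; funext n
          simp only [glue]
          rcases lt_trichotomy n N with h | h | h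
          · rw [if_pos h, if_pos (by omega), a2 n h]
          · subst h; rw [if_neg (by omega), if_pos (by omega)]; omega
          · rw [if_neg (by omega), if_neg (by omega)]
        · rw [if_neg h3, if_neg]
          · rfl
          · rintro ⟨_, a2, a3⟩
            refine h3 ⟨fun n hn => ?_, fun n _ => (glue N v j x).2 n⟩
            simp only [glue]
            split_ifs with h
            · exact (a2 n h).symm
            · have : n = N := by omega
              subst this; omega
      · rw [if_neg h2]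
        split_ifs with h3
        · rw [E0_apply, if_neg]
          rintro ⟨b1, b2⟩
          refine h2 ⟨fun n hn => (b1 n (by omega)).trans (h3.1 n hn), fun n hn => ?_⟩
          rcases hn.eq_or_lt with h | h
          · subst h
            have := b1 N (by omega)
            have := q.2 N
            omega
          · exact b2 n h
        · rfl
    · rw [if_neg h1]
      split_ifs with h3
      · rw [E0_apply, if_neg]
        exact fun h => h1 ⟨h.1, fun n _ => x.2 n⟩
      · rfl
  one M := by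
    ext f x
    let t : X := ⟨fun n => if n < M then x.1 n else 0, fun n => by
      dsimp only; split_ifs
      · exact x.2 n
      · omega⟩
    have ht : t ∈ P M := by
      simp only [P, Set.Finite.mem_toFinset]
      intro n hn; simp [t, not_lt.mpr hn]
    have hx : eqv M x t := fun n hn => by simp [t, hn]
    rw [LinearMap.sum_apply, Finset.sum_apply, Finset.sum_eq_single_of_mem t ht]
    · rw [E0_apply, if_pos ⟨hx, fun n _ => x.2 n⟩, Module.End.one_apply]
      congr 1
      apply Subtype.ext; funext n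
      simp only [glue, t]
      split_ifs
      · rfl
      · have := x.2 n; omega
    · intro p hp hne
      rw [E0_apply, if_neg]
      exact fun h => hne ((eqv_iff hp ht).mp (fun n hn => (h.1 n hn).symm.trans (hx n hn)))
  zero N u v j h := by
    ext f x
    rw [E0_apply, if_neg]
    · rfl
    · intro h'; have := h'.2 N le_rfl; omega
  ne N u v j h := by
    intro h0
    let t : X := ⟨fun n => if n < N then u.1 n else 0, fun n => by
      dsimp only; split_ifs
      · exact u.2 n
      · omega⟩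
    have : E0 N u v j (fun _ => 1) t = 1 := by
      rw [E0_apply, if_pos]
      exact ⟨fun n hn => by simp [t, hn], fun n hn => by simp [t, not_lt.mpr hn]; omega⟩
    rw [h0] at this
    simp at this

section sys
variable {R : Type} [Ring R] [Algebra ℚ R] {E : ℕ → X → X → ℕ → R}

def W (E : ℕ → X → X → ℕ → R) (N j : ℕ) : Submodule ℚ R :=
  Submodule.span ℚ {a | ∃ u v k, j ≤ k ∧ a = E N u v k}

def I (E : ℕ → X → X → ℕ → R) (j : ℕ) : Submodule ℚ R := ⨆ N, W E N j

lemma E_mem {N j k : ℕ} (u v : X) (h : j ≤ k) : E N u v k ∈ W E N j :=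
  Submodule.subset_span ⟨u, v, k, h, rfl⟩

lemma W_anti (N : ℕ) {i j : ℕ} (h : i ≤ j) : W E N j ≤ W E N i :=
  Submodule.span_mono (fun _ ⟨u, v, k, hk, e⟩ => ⟨u, v, k, h.trans hk, e⟩)

omit [Algebra ℚ R] in
lemma Sys.mul1 (s : Sys E) (N : ℕ) (u v w : X) (i j : ℕ) :
    E N u v i * E N v w j = E N u w (i + j) := by
  rw [s.mul, if_pos]
  exact fun _ _ => rfl

omit [Algebra ℚ R] in
lemma Sys.decomp (s : Sys E) (M : ℕ) (a : R) :
    a = ∑ p ∈ P M, ∑ q ∈ P M, E M p p 0 * a * E M q q 0 := by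
  simp only [← Finset.mul_sum, ← Finset.sum_mul, s.one, mul_one, one_mul]

lemma Sys.W_mono (s : Sys E) (j : ℕ) : Monotone (fun N => W E N j) := by
  apply monotone_nat_of_le_succ
  intro N
  apply Submodule.span_le.mpr
  rintro _ ⟨u, v, k, hk, rfl⟩
  rw [s.decomp (N + 1) (E N u v k)]
  refine Submodule.sum_mem _ (fun p _ => Submodule.sum_mem _ (fun q _ => ?_))
  rw [s.sand]
  split_ifs
  · exact E_mem _ _ hk
  · exact zero_mem _

lemma Sys.W_mul (s : Sys E) (N i j : ℕ) (x y : R) (hx : x ∈ W E N i) (hy : y ∈ W E N j) :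
    x * y ∈ W E N (i + j) := by
  have : W E N i * W E N j ≤ W E N (i + j) := by
    rw [W, W, Submodule.span_mul_span, Submodule.span_le]
    rintro _ ⟨_, ⟨u, v, k, hk, rfl⟩, _, ⟨u', v', l, hl, rfl⟩, rfl⟩
    dsimp only
    rw [s.mul]
    split_ifs
    · exact E_mem _ _ (by omega)
    · exact zero_mem _
  exact this (Submodule.mul_mem_mul hx hy)

lemma Sys.mem_I (s : Sys E) {j : ℕ} {x : R} : x ∈ I E j ↔ ∃ N, x ∈ W E N j :=
  Submodule.mem_iSup_of_directed _ (s.W_mono j).directed_le

lemma Sys.I_mul (s : Sys E) {i j : ℕ} {x y : R} (hx : x ∈ I E i) (hy : y ∈ I E j) :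
    x * y ∈ I E (i + j) := by
  obtain ⟨N, hN⟩ := s.mem_I.mp hx
  obtain ⟨M, hM⟩ := s.mem_I.mp hy
  exact s.mem_I.mpr ⟨max N M, s.W_mul _ _ _ _ _ (s.W_mono i (le_max_left _ _) hN)
    (s.W_mono j (le_max_right _ _) hM)⟩

lemma I_anti : Antitone (I E) := fun _ _ h => iSup_mono (fun N => W_anti N h)

lemma Sys.W_zero (s : Sys E) (N : ℕ) : W E N (N + 1) = ⊥ := by
  rw [W, Submodule.span_eq_bot]
  rintro _ ⟨u, v, k, hk, rfl⟩
  exact s.zero _ _ _ _ hk

def upd (p : X) (M i : ℕ) : X := ⟨fun n => if n = M then min i M else p.1 n, fun n => by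
  dsimp only; split_ifs with h
  · omega
  · exact p.2 n⟩

lemma Sys.gen (s : Sys E) {J : Submodule ℚ R} (hJ : IsIdeal J) {M i : ℕ} {p q : X}
    (h : E M p q i ∈ J) (hi : i ≤ M) : I E i ≤ J := by
  have h1 : ∀ M p q, E M p q i ∈ J → W E M i ≤ J := by
    intro M p q h
    apply Submodule.span_le.mpr
    rintro _ ⟨u, v, k, hk, rfl⟩
    have := (hJ (E M q v (k - i)) _ (hJ (E M u p 0) _ h).1).2
    rwa [s.mul1, s.mul1, show 0 + i + (k - i) = k by omega] at this
  have h2 : ∀ d, W E (M + d) i ≤ J := by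
    intro d
    induction d with
    | zero => exact h1 M p q h
    | succ d ih =>
      apply h1 (M + d + 1) (upd p (M + d) 0) (upd q (M + d) i)
      have := (hJ (E (M + d + 1) (upd q (M + d) i) (upd q (M + d) i) 0) _
        (hJ (E (M + d + 1) (upd p (M + d) 0) (upd p (M + d) 0) 0) _
          (ih (E_mem p q le_rfl))).1).2
      rwa [s.sand, if_pos] at this
      refine ⟨fun n hn => by simp [upd, hn.ne], fun n hn => by simp [upd, hn.ne], ?_⟩
      simp only [upd, if_true]; omega
  exact iSup_le (fun N => (s.W_mono i (by omega : N ≤ M + N)).trans (h2 N))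

lemma Sys.ideal (s : Sys E) (htop : I E 0 = ⊤) (J : Submodule ℚ R) (hJ : IsIdeal J) :
    J = ⊥ ∨ ∃ j, J = I E j := by
  classical
  have key : ∀ K : Submodule ℚ R, (∀ i, I E i ≤ J → I E i ≤ K) → J ≤ K := by
    intro K hK a ha
    obtain ⟨N, hN⟩ := s.mem_I.mp (htop ▸ Submodule.mem_top : a ∈ I E 0)
    rw [s.decomp (N + 1) a]
    refine Submodule.sum_mem _ (fun p _ => Submodule.sum_mem _ (fun q _ => ?_))
    have h1 : ∃ c : ℚ, E (N + 1) p p 0 * a * E (N + 1) q q 0 =
        c • E (N + 1) p q (q.1 N - p.1 N) := by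
      clear ha
      induction hN using Submodule.span_induction with
      | mem x hx =>
        obtain ⟨u, v, k, _, rfl⟩ := hx
        rw [s.sand]
        split_ifs with h
        · exact ⟨1, by rw [one_smul, h.2.2, Nat.add_sub_cancel_left]⟩
        · exact ⟨0, by simp⟩
      | zero => exact ⟨0, by simp⟩
      | add x y _ _ hx hy =>
        obtain ⟨c, hc⟩ := hx
        obtain ⟨d, hd⟩ := hy
        exact ⟨c + d, by rw [mul_add, add_mul, hc, hd, add_smul]⟩
      | smul c x _ hx =>
        obtain ⟨d, hd⟩ := hx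
        exact ⟨c * d, by rw [mul_smul_comm, smul_mul_assoc, hd, mul_smul]⟩
    obtain ⟨c, hc⟩ := h1
    have h2 := (hJ (E (N + 1) q q 0) _ (hJ (E (N + 1) p p 0) _ ha).1).2
    rw [hc] at h2 ⊢
    by_cases h0 : c = 0
    · simp [h0]
    · have h3 := s.gen hJ ((J.smul_mem_iff h0).mp h2) (by have := q.2 N; omega)
      exact K.smul_mem c (hK _ h3 (s.mem_I.mpr ⟨_, E_mem _ _ le_rfl⟩))
  by_cases h : ∃ j, I E j ≤ J
  · exact Or.inr ⟨Nat.find h, le_antisymm
      (key _ (fun i hi => I_anti (Nat.find_min' h hi))) (Nat.find_spec h)⟩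
  · exact Or.inl (le_bot_iff.mp (key _ (fun i hi => absurd ⟨i, hi⟩ h)))

def z0 : X := ⟨fun _ => 0, fun _ => Nat.zero_le _⟩

lemma third (i j : X) : ∃ k ∈ P 3, k ≠ i ∧ k ≠ j := by
  have h : ∀ a, upd z0 2 a ∈ P 3 := fun a => by
    simp only [P, Set.Finite.mem_toFinset]
    intro n hn
    have : n ≠ 2 := by omega
    simp [upd, this, z0]
  by_contra hc
  push Not at hc
  have e : ∀ a, a ≤ 2 → i.1 2 = a ∨ j.1 2 = a := fun a ha => by
    by_cases h1 : upd z0 2 a = i
    · left; rw [← h1]; simp [upd, ha]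
    · right; rw [← hc _ (h a) h1]; simp [upd, ha]
  have := e 0 (by omega)
  have := e 1 (by omega)
  have := e 2 (by omega)
  omega

lemma Sys.jordan (s : Sys E) (U : Submodule ℚ R) (hU : ∀ r x, x ∈ U → r * x + x * r ∈ U) :
    IsIdeal U := by
  have h1 : ∀ e x, e * e = e → x ∈ U → e * x * e ∈ U := by
    intro e x he hx
    have := U.smul_mem (1 / 2 : ℚ) (sub_mem (hU e _ (hU e x hx)) (hU e x hx))
    convert this using 1
    rw [mul_add, add_mul, ← mul_assoc, he, mul_assoc x e e, he, ← mul_assoc]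
    module
  have m1 : ∀ a b c, E 3 a b 0 * E 3 b c 0 = E 3 a c 0 := fun a b c =>
    s.mul1 _ _ _ _ _ _
  have m0 : ∀ a b c d, b ∈ P 3 → c ∈ P 3 → b ≠ c → E 3 a b 0 * E 3 c d 0 = 0 :=
    fun a b c d hb hc h => by rw [s.mul, if_neg (fun e => h ((eqv_iff hb hc).mp e))]
  have m1' : ∀ a b c y, E 3 a b 0 * (E 3 b c 0 * y) = E 3 a c 0 * y := fun a b c y => by
    rw [← mul_assoc, m1]
  have m0' : ∀ a b c d y, b ∈ P 3 → c ∈ P 3 → b ≠ c → E 3 a b 0 * (E 3 c d 0 * y) = 0 :=
    fun a b c d y hb hc h => by rw [← mul_assoc, m0 a b c d hb hc h, zero_mul]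
  have h2 : ∀ x ∈ U, ∀ i ∈ P 3, ∀ j ∈ P 3, E 3 i i 0 * x * E 3 j j 0 ∈ U := by
    intro x hx i hi j hj
    by_cases hij : i = j
    · subst hij; exact h1 _ _ (m1 _ _ _) hx
    obtain ⟨k, hk, hki, hkj⟩ := third i j
    have a1 := sub_mem (sub_mem (h1 (E 3 i i 0 + E 3 j j 0) x (by
      rw [mul_add, add_mul, add_mul, m1, m1, m0 _ _ _ _ hi hj hij, m0 _ _ _ _ hj hi (Ne.symm hij)]
      simp) hx) (h1 _ x (m1 i i i) hx)) (h1 _ x (m1 j j j) hx)
    have a2 := hU (E 3 i k 0) _ (hU (E 3 k i 0) _ a1)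
    convert a2 using 1
    simp only [mul_add, add_mul, mul_sub, sub_mul, mul_assoc, m1, m1', m0 _ _ _ _ hi hk hki.symm,
      m0 _ _ _ _ hj hk hkj.symm, m0' _ _ _ _ _ hi hj hij, m0 _ _ _ _ hj hi (Ne.symm hij),
      m0' _ _ _ _ _ hk hi hki, m0' _ _ _ _ _ hk hj hkj, mul_zero, m0 _ _ _ _ hk hi hki,
      m0 _ _ _ _ hk hj hkj, m0' _ _ _ _ _ hi hk hki.symm, m0' _ _ _ _ _ hj hk hkj.symm, zero_mul]
    abel
  have h3 : ∀ r x, x ∈ U → r * x ∈ U := by
    intro r x hx
    rw [s.decomp 3 (r * x)]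
    refine Submodule.sum_mem _ (fun k hk => Submodule.sum_mem _ (fun j hj => ?_))
    have hy : x * E 3 j j 0 ∈ U := by
      rw [← one_mul x, ← s.one 3, Finset.sum_mul, Finset.sum_mul]
      exact Submodule.sum_mem _ (fun i hi => h2 x hx i hi j hj)
    have hw : ∀ m ∈ P 3, m ≠ j → ∀ r', E 3 m m 0 * r' * (x * E 3 j j 0) ∈ U := by
      intro m hm hmj r'
      have := hU (E 3 m m 0 * r') _ hy
      rwa [mul_assoc x, m0' _ _ _ _ _ hj hm hmj.symm, mul_zero, add_zero] at this
    by_cases hkj : k = j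
    · subst hkj
      obtain ⟨m, hm, hmk, _⟩ := third k k
      have := h1 _ _ (m1 k k k) (hU (E 3 k m 0) _ (hw m hm hmk (E 3 m k 0 * r)))
      convert this using 1
      simp only [mul_add, add_mul, mul_assoc, m1, m1', m0' _ _ _ _ _ hk hm hmk.symm, add_zero]
    · have := hw k hk hkj r
      convert this using 1
      simp only [mul_assoc]
  intro a x hx
  refine ⟨h3 a x hx, ?_⟩
  have := sub_mem (hU a x hx) (h3 a x hx)
  rwa [add_sub_cancel_left] at this

lemma Sys.I_left (s : Sys E) (htop : I E 0 = ⊤) (a x : R) (hx : x ∈ I E 1) : a * x ∈ I E 1 := by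
  have h0 : a ∈ I E 0 := by rw [htop]; trivial
  have := s.I_mul h0 hx
  rwa [zero_add] at this

lemma Sys.I_right (s : Sys E) (htop : I E 0 = ⊤) (a x : R) (hx : x ∈ I E 1) : x * a ∈ I E 1 := by
  have h0 : a ∈ I E 0 := by rw [htop]; trivial
  have := s.I_mul hx h0
  rwa [add_zero] at this

lemma Sys.bad (s : Sys E) (htop : I E 0 = ⊤) : Bad R := by
  have h0 : E 0 z0 z0 0 ∈ I E 0 := by rw [htop]; trivial
  refine bad_of (I E) (W E) (s.ideal htop)
    (fun a x hx => ⟨s.I_left htop a x hx, s.I_right htop a x hx⟩)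
    I_anti s.W_mul s.W_zero (fun N => W_anti N one_le_two) (s.W_mono 1) (fun x => s.mem_I.mp)
    (fun n hn => ?_) (E 0 z0 z0 0) h0 (s.ne _ _ _ _ le_rfl) 1 one_ne_zero
    (by rw [s.mul1, one_smul])
  have : ∀ k, IsProd (I E 1 : Set R) (k + 1) (E n z0 z0 (k + 1)) := by
    have h1 : IsProd (I E 1 : Set R) 1 (E n z0 z0 1) :=
      IsProd.one (s.mem_I.mpr ⟨n, E_mem _ _ le_rfl⟩)
    intro k
    induction k with
    | zero => exact h1
    | succ k ih =>
      have := ih.mul h1
      rwa [s.mul1] at this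
  have h2 := this (n - 1)
  rw [show n - 1 + 1 = n by omega] at h2
  exact ⟨_, s.ne _ _ _ _ le_rfl, h2⟩

end sys

def Jd (R : Type) : Type := R

section jd
variable {R : Type} [Ring R] [Algebra ℚ R] {E : ℕ → X → X → ℕ → R}

def jm (x y : R) : R := x * y + y * x

instance : NonUnitalNonAssocRing (Jd R) :=
  { (inferInstance : AddCommGroup R) with
    mul := jm (R := R)
    left_distrib := fun (a b c : R) => show jm a (b + c) = jm a b + jm a c by
      unfold jm; noncomm_ring
    right_distrib := fun (a b c : R) => show jm (a + b) c = jm a c + jm b c by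
      unfold jm; noncomm_ring
    zero_mul := fun (a : R) => show jm 0 a = 0 by simp [jm]
    mul_zero := fun (a : R) => show jm a 0 = 0 by simp [jm] }

instance : Module ℚ (Jd R) := (inferInstance : Module ℚ R)

instance : IsScalarTower ℚ (Jd R) (Jd R) :=
  ⟨fun c (a b : R) => show jm (c • a) b = c • jm a b by simp [jm]⟩

instance : SMulCommClass ℚ (Jd R) (Jd R) :=
  ⟨fun c (a b : R) => show c • jm a b = jm a (c • b) by simp [jm]⟩

lemma Sys.badJ (s : Sys E) (htop : I E 0 = ⊤) : Bad (Jd R) := by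
  have h0 : E 0 z0 z0 0 ∈ I E 0 := by rw [htop]; trivial
  have hm : ∀ N i j (x y : R), x ∈ W E N i → y ∈ W E N j → jm x y ∈ W E N (i + j) :=
    fun N i j x y hx hy => add_mem (s.W_mul N i j x y hx hy)
      (by rw [add_comm]; exact s.W_mul N j i y x hy hx)
  have hi : ∀ a x : R, x ∈ I E 1 → jm a x ∈ I E 1 ∧ jm x a ∈ I E 1 := fun a x hx =>
    ⟨add_mem (s.I_left htop a x hx) (s.I_right htop a x hx),
      add_mem (s.I_right htop a x hx) (s.I_left htop a x hx)⟩
  have hj : ∀ J : Submodule ℚ R, (∀ a x : R, x ∈ J → jm a x ∈ J ∧ jm x a ∈ J) →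
      J = ⊥ ∨ ∃ j, J = I E j :=
    fun J hJ => s.ideal htop J (s.jordan J (fun r x hx => (hJ r x hx).1))
  have hI : ∀ x ∈ I E 1, ∃ N, x ∈ W E N 1 := fun x => s.mem_I.mp
  have h2 : ∀ N, W E N 2 ≤ W E N 1 := fun N => W_anti N one_le_two
  have ha : Antitone (I E) := I_anti
  refine bad_of (A := Jd R) (I (R := R) E) (W (R := R) E) hj hi ha hm s.W_zero h2 (s.W_mono 1) hI
    (fun n hn => ?_) (E 0 z0 z0 0) h0 (s.ne _ _ _ _ le_rfl) 2 two_ne_zero ?_
  · have : ∀ k, IsProd (A := Jd R) (I E 1 : Set R) (k + 1)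
        (((2 : ℚ) ^ k • E n z0 z0 (k + 1) : R)) := by
      have h1 : IsProd (A := Jd R) (I E 1 : Set R) 1 (E n z0 z0 1) :=
        IsProd.one (s.mem_I.mpr ⟨n, E_mem _ _ le_rfl⟩)
      intro k
      induction k with
      | zero => rw [pow_zero, one_smul]; exact h1
      | succ k ih =>
        have h3 : ((2 : ℚ) ^ (k + 1) • E n z0 z0 (k + 1 + 1) : R) =
            jm ((2 : ℚ) ^ k • E n z0 z0 (k + 1)) (E n z0 z0 1) := by
          rw [jm, smul_mul_assoc, mul_smul_comm, s.mul1, s.mul1, add_comm 1 (k + 1), pow_succ]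
          module
        rw [h3]
        exact ih.mul h1
    have h3 := this (n - 1)
    rw [show n - 1 + 1 = n by omega] at h3
    exact ⟨_, smul_ne_zero (M := R) (pow_ne_zero _ (two_ne_zero (α := ℚ))) (s.ne _ _ _ _ le_rfl), h3⟩
  · show jm (E 0 z0 z0 0) (E 0 z0 z0 0) = (2 : ℚ) • E 0 z0 z0 0
    rw [jm, s.mul1, two_smul]

end jd

def gens : Set (Module.End ℚ (X → ℚ)) := {a | ∃ N u v j, a = E0 N u v j}

abbrev A0 : Type := Algebra.adjoin ℚ gens

noncomputable def E1 (N : ℕ) (u v : X) (j : ℕ) : A0 :=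
  ⟨E0 N u v j, Algebra.subset_adjoin ⟨N, u, v, j, rfl⟩⟩

lemma sys1 : Sys E1 where
  mul N u v i u' v' j := by
    apply Subtype.ext
    have := sys0.mul N u v i u' v' j
    split_ifs at this ⊢ <;> exact this
  sand N u v j p q := by
    apply Subtype.ext
    have := sys0.sand N u v j p q
    split_ifs at this ⊢ <;> exact this
  one M := by
    apply Subtype.ext
    rw [AddSubmonoidClass.coe_finsetSum]
    exact sys0.one M
  zero N u v j h := Subtype.ext (sys0.zero N u v j h)
  ne N u v j h := fun e => sys0.ne N u v j h (congrArg Subtype.val e)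

lemma top1 : I E1 0 = ⊤ := by
  have h1 : (1 : A0) ∈ I E1 0 := by
    rw [← sys1.one 0]
    exact Submodule.sum_mem _ (fun p _ => sys1.mem_I.mpr ⟨0, E_mem _ _ le_rfl⟩)
  have h3 : ∀ x y, x ∈ I E1 0 → y ∈ I E1 0 → x * y ∈ I E1 0 := fun x y hx hy => by
    have := sys1.I_mul hx hy
    rwa [add_zero] at this
  have h2 : ⊤ ≤ (I E1 0).toSubalgebra h1 h3 := by
    rw [← Algebra.adjoin_adjoin_coe_preimage, Algebra.adjoin_le_iff]
    rintro ⟨_, _⟩ ⟨N, u, v, j, rfl⟩
    have h4 : E1 N u v j ∈ I E1 0 := sys1.mem_I.mpr ⟨N, E_mem u v (Nat.zero_le j)⟩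
    exact h4
  exact eq_top_iff.mpr (fun x _ => h2 Algebra.mem_top)

theorem result :
    (∃ (A : Type) (_ : NonUnitalNonAssocRing A) (_ : Module ℚ A) (_ : IsScalarTower ℚ A A)
      (_ : SMulCommClass ℚ A A), (∀ x y z : A, x * y * z = x * (y * z)) ∧ Bad A) ∧
    (∃ (A : Type) (_ : NonUnitalNonAssocRing A) (_ : Module ℚ A) (_ : IsScalarTower ℚ A A)
      (_ : SMulCommClass ℚ A A),
      (∀ x y : A, x * x * y = x * (x * y) ∧ y * x * x = y * (x * x)) ∧ Bad A) ∧
    (∃ (A : Type) (_ : NonUnitalNonAssocRing A) (_ : Module ℚ A) (_ : IsScalarTower ℚ A A)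
      (_ : SMulCommClass ℚ A A),
      (∀ x y : A, x * y = y * x ∧ x * x * y * x = x * x * (y * x)) ∧ Bad A) := by
  refine ⟨⟨A0, inferInstance, inferInstance, inferInstance, inferInstance, mul_assoc,
    sys1.bad top1⟩, ⟨A0, inferInstance, inferInstance, inferInstance, inferInstance,
    fun x y => ⟨mul_assoc _ _ _, mul_assoc _ _ _⟩, sys1.bad top1⟩,
    ⟨Jd A0, inferInstance, inferInstance, inferInstance, inferInstance, fun (x y : A0) => ⟨?_, ?_⟩,
    sys1.badJ top1⟩⟩
  · show jm x y = jm y x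
    unfold jm; abel
  · show jm (jm (jm x x) y) x = jm (jm x x) (jm y x)
    unfold jm; noncomm_ring

end Pool.Agent.Results.MP_768068_al.NotNilpotent
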